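import Pool.Agent.Lib.MP_f43b6f_lc.UBridge

set_option autoImplicit false

namespace Pool.Agent.Lib.MP_f43b6f_lc.Old.ArithUpper

open Pool.Agent.Lib.MP_f43b6f_lc

/-- Every colouring `c` of the natural numbers with `k` colours has an infinite set `X`,
arithmetical in `c`, whose sums of at most two distinct elements all have the same colour. -/
theorem result (k : ℕ) (c : ℕ → ℕ) (hc : ∀ n, c n < k) :
    ∃ X : Set ℕ, X.Infinite ∧ ArithIn c X ∧ ∃ i, ∀ s ∈ FSle 2 X, c s = i :=
  solved (o := ⟨c⟩) hc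

end Pool.Agent.Lib.MP_f43b6f_lc.Old.ArithUpper
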